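import Pool.Agent.Run7.h909.GE.Skew
import Pool.Agent.Run7.h909.GE.Free
import Pool.Agent.Run7.h909.GT.Fin

/-!
# `GL_2` of skew polynomial rings, `GE_2` of noncommutative rings with a degree function

`C` is any class of groups with the closure properties `ClosedE C` which contains the solvable groups.
All this is known for the class of the groups whose wreath products with finite groups satisfy the
K- and L-theoretic Farrell-Jones conjecture with coefficients in additive categories.

`K` is a division ring, not necessarily commutative. The assumption on `GL_2(K)` below holds for the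
Farrell-Jones class if `K` is of finite dimension over a number field or over a global function field
(Rüping), and if `K` is an algebraic extension of a finite field.

* (1) Let `R` be a ring with a degree function with values in `ℕ` whose elements of degree `0` form a
  division ring `K`, such that `K` is a direct summand of `R` as a `K`-`K`-bimodule. If `GL_2(K)` is in
  `C`, then the subgroup `GE_2(R)` of `GL_2(R)` generated by `GL_2(K)` and the elementary matrices is in
  `C`.
* (2) If, moreover, `R` has division with remainder on one side, then `GL_2(R)` is in `C`.
* (3) If `GL_2(K)` is in `C`, then so are `GL_2(K[x])` and `GL_2(K[x; φ])`, for every endomorphism `φ` of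
  `K`, where `K[x; φ]` is the ring of the skew polynomials with `x a = φ(a) x`.
* (4) If `K` is an algebraic extension of a finite field with an endomorphism `φ`, then `GL_2(K[x; φ])`
  is in `C`. For instance `φ` can be the Frobenius automorphism; then `K[x; φ]` is the endomorphism ring
  of the additive group `G_a` over `K`, and `GL_2(K[x; φ])` is the automorphism group of the algebraic
  group `G_a × G_a`.
* (5) If `K` is a field with `GL_2(K)` in `C`, then `GE_2` of the free associative `K`-algebra on any set
  is in `C` (by a theorem of Cohn, `GE_2 = GL_2` for free associative algebras).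

These groups act on the trees of amalgamated products `GL_2(K) *_{B_2(K)} B_2(K, R)`, where `B_2(K, R)`
is the group of the triangular matrices with diagonal entries in `K`. The actions are in general not
acylindrical, even modulo the kernel, since the axes of hyperbolic elements can be fixed by infinite
noncentral subgroups (for instance in the case (3) by diagonal matrices over the fixed ring of a power
of `φ`).

Outline of the proof. The amalgamated product maps injectively to `GL_2(R)`, by ping-pong on the columns
`(x, y)` with `deg x > deg y` and `deg x ≤ deg y`. It also maps to the semidirect product `P` of the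
additive group of the matrices over `R` and `GL_2(K)`: the factor `GL_2(K)` in the obvious way and a
triangular matrix `b` to `(b s(b)⁻¹ - 1, s(b))`, where `s(b)` is the matrix with the entries
`π(b i j)` and `π : R → K` is the projection of the bimodules. This homomorphism is injective on both
factors, and `P` is in `C` as an extension of `GL_2(K)` by an abelian group; so the amalgamated product
is in `C`. For (2) one uses the Euclidean algorithm on the first column of a matrix.
-/

set_option autoImplicit false

namespace Pool.Agent.Results.MP_5d3e93_al.SkewPolynomialMatrices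

open Pool.Agent.Y110.FJ (ClosedE)
open Run7.h909.GE

open scoped MatrixGroups Polynomial

theorem result (C : ∀ (G : Type) [Group G], Prop) (hC : ClosedE C)
    (hsol : ∀ (G : Type) [Group G], Group.IsSolvable G → C G) :
    -- (1)
    (∀ (K R : Type) [DivisionRing K] [Ring R] (ι : K →+* R) (deg : R → ℕ) (π : R →+ K),
      DegRing ι deg π → C (Matrix (Fin 2) (Fin 2) K)ˣ → C (GE2 ι)) ∧
    -- (2)
    (∀ (K R : Type) [DivisionRing K] [Ring R] (ι : K →+* R) (deg : R → ℕ) (π : R →+ K),
      DegRing ι deg π → HasDiv deg → C (Matrix (Fin 2) (Fin 2) K)ˣ →
      C (Matrix (Fin 2) (Fin 2) R)ˣ) ∧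
    -- (3)
    (∀ (K : Type) [DivisionRing K], C (Matrix (Fin 2) (Fin 2) K)ˣ →
      C (Matrix (Fin 2) (Fin 2) K[X])ˣ) ∧
    (∀ (K : Type) [DivisionRing K] [MulSemiringAction (Multiplicative ℕ) K],
      C (Matrix (Fin 2) (Fin 2) K)ˣ → C (Matrix (Fin 2) (Fin 2) (SkewPolynomial K))ˣ) ∧
    -- (4)
    (∀ (K : Type) [Field K] [MulSemiringAction (Multiplicative ℕ) K] (p : ℕ) [Fact p.Prime]
      [Algebra (ZMod p) K] [Algebra.IsAlgebraic (ZMod p) K],
      C (Matrix (Fin 2) (Fin 2) (SkewPolynomial K))ˣ) ∧
    -- (5)
    (∀ (K X : Type) [Field K], C (Matrix (Fin 2) (Fin 2) K)ˣ →
      C (GE2 (algebraMap K (FreeAlgebra K X)))) := by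
  refine ⟨?_, ?_, ?_, ?_, ?_, ?_⟩
  · intro K R _ _ ι deg π h hK
    exact GE2_mem hC hsol h hK
  · intro K R _ _ ι deg π h hd hK
    exact GL2_mem hC hsol h hd hK
  · intro K _ hK
    exact GL2_mem hC hsol (poly_deg K) (poly_div K) hK
  · intro K _ _ hK
    exact GL2_mem hC hsol skew_deg skew_div hK
  · intro K _ _ p _ _ _
    exact GL2_mem hC hsol skew_deg skew_div (Run7.h909.GT.algfin_mem hC K p)
  · intro K X _ hK
    exact GE2_mem hC hsol (free_deg K X) hK

end Pool.Agent.Results.MP_5d3e93_al.SkewPolynomialMatrices
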